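import Pool.Agent.CyDes.Main

set_option autoImplicit false

namespace Pool.Agent.Results.MP_7df715_lc.CycleDescription

open Pool.Agent.CyDes

/-- Q1: complete description of the cyclic on/off polytope by linear inequalities in the state
and start-up variables alone. For all `n ≥ 2` and all weakly monotone parameters, a point
`p = (y, z)` lies in `conv(Z(n, α, β, γ, δ))` if and only if it satisfies the constraints of `P`
and the cycle inequality of every simple cycle of the constraint graph. -/
theorem result (n : ℕ) [NeZero n] (hn : 2 ≤ n) (α β γ δ : ZMod n → ℕ)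
    (hab : Bounds n α β) (hgd : Bounds n γ δ)
    (ma : WeaklyMonotone n α) (mb : WeaklyMonotone n β)
    (mg : WeaklyMonotone n γ) (md : WeaklyMonotone n δ) :
    convexHull ℝ (Z n α β γ δ) =
      {p : E n | (∀ e : Con n, 0 ≤ slack α β γ δ p e) ∧
        ∀ C : List (Con n × Bool), IsCycle α β γ δ C → CycleIneq α β γ δ p C} :=
  main hn hab hgd ma mb mg md

end Pool.Agent.Results.MP_7df715_lc.CycleDescription
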