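import Mathlib

set_option autoImplicit false

namespace Pool.Agent.Results.MP_7df715_lc.ManyFacets

open Finset Module

/-- The ambient space of pairs `(y, z)`, with time periods indexed by `ZMod n`. -/
abbrev E (n : ℕ) : Type := (ZMod n → ℝ) × (ZMod n → ℝ)

/-- The set `Z(n, α, β, γ, δ)` of on/off schedules, as in the problem. -/
def Z (n : ℕ) [NeZero n] (α β γ δ : ZMod n → ℕ) : Set (E n) :=
  {p | (∀ t, (p.1 t = 0 ∨ p.1 t = 1) ∧ (p.2 t = 0 ∨ p.2 t = 1)) ∧
    (1 ≤ ∑ t, p.1 t ∧ ∑ t, p.1 t ≤ (n : ℝ) - 1) ∧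
    (∀ t, p.2 t = 1 ↔ (p.1 (t - 1) = 0 ∧ p.1 t = 1)) ∧
    (∀ t, p.1 t - p.1 (t - 1) = 1 →
      (∀ i : ℕ, i < α t → p.1 (t + (i : ZMod n)) = 1) ∧
      ∃ i : ℕ, α t ≤ i ∧ i ≤ β t ∧ p.1 (t + (i : ZMod n)) = 0) ∧
    (∀ t, p.1 (t - 1) - p.1 t = 1 →
      (∀ i : ℕ, i < γ t → p.1 (t + (i : ZMod n)) = 0) ∧
      ∃ i : ℕ, γ t ≤ i ∧ i ≤ δ t ∧ p.1 (t + (i : ZMod n)) = 1)}

/-- The standing assumptions `1 ≤ lo t ≤ hi t ≤ n - 1`. -/
def Bounds (n : ℕ) (lo hi : ZMod n → ℕ) : Prop :=
  ∀ t, 1 ≤ lo t ∧ lo t ≤ hi t ∧ hi t ≤ n - 1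

/-- Weak monotonicity `ε (t + 1) ≥ ε t - 1` of a parameter vector. -/
def WeaklyMonotone (n : ℕ) (ε : ZMod n → ℕ) : Prop :=
  ∀ t, ε t ≤ ε (t + 1) + 1

/-- `F` is a facet of the convex set `P`: a nonempty face cut out by a valid linear inequality,
whose dimension is one less than the dimension of `P`. -/
def IsFacet {n : ℕ} (P F : Set (E n)) : Prop :=
  (∃ (c : E n →ₗ[ℝ] ℝ) (b : ℝ), (∀ x ∈ P, c x ≤ b) ∧ F = {x ∈ P | c x = b}) ∧
  F.Nonempty ∧ finrank ℝ (vectorSpan ℝ F) + 1 = finrank ℝ (vectorSpan ℝ P)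

section

set_option linter.unusedSectionVars false

variable {n : ℕ} [NeZero n]

/-- sign vectors -/
def IsSgn (w : ZMod n → ℝ) : Prop := ∀ t, w t = 1 ∨ w t = -1

/-- Linear change of coordinates from `(y, x)` to `(y, z)`. -/
noncomputable def Phi : E n →ₗ[ℝ] E n where
  toFun u := (u.1, fun t => (u.2 t + u.1 t - u.1 (t - 1)) / 2)
  map_add' u v := by
    ext t
    · rfl
    · simp only [Prod.fst_add, Prod.snd_add, Pi.add_apply]; ring
  map_smul' c u := by
    ext t
    · rfl
    · simp only [Prod.smul_fst, Prod.smul_snd, Pi.smul_apply, smul_eq_mul, RingHom.id_apply]; ring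

theorem Phi_surj : Function.Surjective (Phi (n := n)) := by
  intro v
  refine ⟨(v.1, fun t => 2 * v.2 t - v.1 t + v.1 (t - 1)), ?_⟩
  ext t
  · rfl
  · simp only [Phi, LinearMap.coe_mk, AddHom.coe_mk]; ring

/-- The point of `Z` attached to a sign vector (`y = (1 - w) / 2`). -/
noncomputable def pt (w : ZMod n → ℝ) : E n :=
  Phi (fun t => (1 - w t) / 2, fun t => (1 - w t * w (t - 1)) / 2)

theorem pt_fst (w : ZMod n → ℝ) (t : ZMod n) : (pt w).1 t = (1 - w t) / 2 := rfl

theorem pt_snd (w : ZMod n → ℝ) (t : ZMod n) : (pt w).2 t = (1 - w t) * (1 + w (t - 1)) / 4 := by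
  simp only [pt, Phi, LinearMap.coe_mk, AddHom.coe_mk]; ring

theorem pt_mem_Z (w : ZMod n → ℝ) (hw : IsSgn w) (h1 : ∃ t, w t = 1) (h2 : ∃ t, w t = -1) :
    pt w ∈ Z n (fun _ => 1) (fun _ => n - 1) (fun _ => 1) (fun _ => n - 1) := by
  obtain ⟨a, ha⟩ := h1
  obtain ⟨b, hb⟩ := h2
  have hy01 : ∀ t, (pt w).1 t = 0 ∨ (pt w).1 t = 1 := by
    intro t
    rw [pt_fst]
    rcases hw t with h | h <;> rw [h] <;> norm_num
  have hya : (pt w).1 a = 0 := by rw [pt_fst, ha]; norm_num
  have hyb : (pt w).1 b = 1 := by rw [pt_fst, hb]; norm_num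
  have hy0 : ∀ t, 0 ≤ (pt w).1 t := fun t => by rcases hy01 t with h | h <;> rw [h]; norm_num
  have hy1 : ∀ t, 0 ≤ 1 - (pt w).1 t := fun t => by
    rcases hy01 t with h | h <;> rw [h] <;> norm_num
  have key : ∀ t s : ZMod n, t ≠ s → ∃ i : ℕ, 1 ≤ i ∧ i ≤ n - 1 ∧ t + (i : ZMod n) = s := by
    intro t s hts
    refine ⟨(s - t).val, ?_, ?_, ?_⟩
    · rw [Nat.one_le_iff_ne_zero, Ne, ZMod.val_eq_zero, sub_eq_zero]
      exact fun h => hts h.symm
    · have := ZMod.val_lt (s - t)
      omega
    · rw [ZMod.natCast_zmod_val]; ring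
  refine ⟨fun t => ⟨hy01 t, ?_⟩, ⟨?_, ?_⟩, ?_, ?_, ?_⟩
  · rw [pt_snd]
    rcases hw t with h | h <;> rcases hw (t - 1) with h' | h' <;> rw [h, h'] <;> norm_num
  · rw [← hyb]
    exact Finset.single_le_sum (fun t _ => hy0 t) (Finset.mem_univ b)
  · have h := Finset.single_le_sum (fun t _ => hy1 t) (Finset.mem_univ a)
    rw [hya, Finset.sum_sub_distrib] at h
    simp only [Finset.sum_const, Finset.card_univ, ZMod.card, nsmul_eq_mul, mul_one] at h
    linarith
  · intro t
    rw [pt_snd, pt_fst, pt_fst]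
    rcases hw t with h | h <;> rcases hw (t - 1) with h' | h' <;> rw [h, h'] <;> norm_num
  · intro t ht
    have hyt : (pt w).1 t = 1 := by
      rcases hy01 t with h | h <;> rcases hy01 (t - 1) with h' | h' <;> rw [h, h'] at ht <;>
        first | exact h | (exfalso; norm_num at ht)
    refine ⟨fun i hi => ?_, ?_⟩
    · have : i = 0 := by simpa using hi
      subst this
      simpa using hyt
    · obtain ⟨i, h1, h2, h3⟩ := key t a (fun h => by rw [h, hya] at hyt; norm_num at hyt)
      exact ⟨i, h1, h2, by rw [h3, hya]⟩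
  · intro t ht
    have hyt : (pt w).1 t = 0 := by
      rcases hy01 t with h | h <;> rcases hy01 (t - 1) with h' | h' <;> rw [h, h'] at ht <;>
        first | exact h | (exfalso; norm_num at ht)
    refine ⟨fun i hi => ?_, ?_⟩
    · have : i = 0 := by simpa using hi
      subst this
      simpa using hyt
    · obtain ⟨i, h1, h2, h3⟩ := key t b (fun h => by rw [h, hyb] at hyt; norm_num at hyt)
      exact ⟨i, h1, h2, by rw [h3, hyb]⟩

theorem eq_pt_of_mem_Z {α β γ δ : ZMod n → ℕ} {p : E n} (hp : p ∈ Z n α β γ δ) :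
    ∃ w, IsSgn w ∧ p = pt w := by
  obtain ⟨h01, -, hz, -⟩ := hp
  refine ⟨fun t => 1 - 2 * p.1 t, fun t => ?_, ?_⟩
  · rcases (h01 t).1 with h | h
    · left; simp only [h]; norm_num
    · right; simp only [h]; norm_num
  · ext t
    · rw [pt_fst]; ring
    · rw [pt_snd]
      have h1 := hz t
      rcases (h01 t).1 with h | h <;> rcases (h01 (t - 1)).1 with h' | h' <;>
        rcases (h01 t).2 with h'' | h'' <;> rw [h, h', h''] at h1 <;> rw [h, h', h''] <;>
        first | (exfalso; norm_num at h1; done) | norm_num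

/-- The sign vector of a finite set. -/
noncomputable def sg (F : Finset (ZMod n)) (t : ZMod n) : ℝ := if t ∈ F then -1 else 1

theorem sg_sgn (F : Finset (ZMod n)) : IsSgn (sg F) := by
  intro t; unfold sg; split_ifs <;> simp

theorem prod_sg (F : Finset (ZMod n)) : ∏ t, sg F t = (-1) ^ F.card := by
  unfold sg
  rw [Finset.prod_ite, Finset.prod_const, Finset.prod_const_one, mul_one,
    Finset.filter_mem_eq_inter, Finset.univ_inter]

/-- The linear functional attached to a finite set. -/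
noncomputable def cF (F : Finset (ZMod n)) : E n →ₗ[ℝ] ℝ where
  toFun p := ∑ t, -sg F t * (2 * p.2 t - p.1 t + p.1 (t - 1))
  map_add' p q := by
    rw [← Finset.sum_add_distrib]
    refine Finset.sum_congr rfl fun t _ => ?_
    simp only [Prod.fst_add, Prod.snd_add, Pi.add_apply]; ring
  map_smul' c p := by
    rw [RingHom.id_apply, smul_eq_mul, Finset.mul_sum]
    refine Finset.sum_congr rfl fun t _ => ?_
    simp only [Prod.smul_fst, Prod.smul_snd, Pi.smul_apply, smul_eq_mul]; ring

/-- The set of defects of a sign vector with respect to `F`. -/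
noncomputable def dft (F : Finset (ZMod n)) (w : ZMod n → ℝ) : Finset (ZMod n) :=
  Finset.univ.filter fun t => w t * w (t - 1) ≠ sg F t

theorem cF_pt (F : Finset (ZMod n)) (w : ZMod n → ℝ) (hw : IsSgn w) :
    cF F (pt w) = F.card - (dft F w).card := by
  have h1 : (F.card : ℝ) = ∑ t, (1 - sg F t) / 2 := by
    have : ∀ t, (1 - sg F t) / 2 = if t ∈ F then (1 : ℝ) else 0 := by
      intro t; unfold sg; split_ifs <;> norm_num
    rw [Finset.sum_congr rfl fun t _ => this t, Finset.sum_ite_mem, Finset.univ_inter,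
      Finset.sum_const, nsmul_eq_mul, mul_one]
  have h2 : ((dft F w).card : ℝ) = ∑ t, (1 - sg F t * (w t * w (t - 1))) / 2 := by
    have : ∀ t, (1 - sg F t * (w t * w (t - 1))) / 2 =
        if w t * w (t - 1) ≠ sg F t then (1 : ℝ) else 0 := by
      intro t
      rcases sg_sgn F t with h | h <;> rcases hw t with h' | h' <;>
        rcases hw (t - 1) with h'' | h'' <;> rw [h, h', h''] <;> norm_num
    rw [Finset.sum_congr rfl fun t _ => this t, Finset.sum_ite, Finset.sum_const_zero, add_zero,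
      Finset.sum_const, nsmul_eq_mul, mul_one]
    rfl
  rw [h1, h2, ← Finset.sum_sub_distrib]
  change ∑ t, -sg F t * (2 * (pt w).2 t - (pt w).1 t + (pt w).1 (t - 1)) = _
  refine Finset.sum_congr rfl fun t _ => ?_
  rw [pt_fst, pt_fst, pt_snd]
  ring

theorem prod_shift (w : ZMod n → ℝ) : ∏ t, w (t - 1) = ∏ t, w t :=
  Fintype.prod_equiv (Equiv.subRight (1 : ZMod n)) _ _ fun _ => rfl

theorem prod_ww (w : ZMod n → ℝ) (hw : IsSgn w) : ∏ t, w t * w (t - 1) = 1 := by
  rw [Finset.prod_mul_distrib, prod_shift, ← Finset.prod_mul_distrib]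
  apply Finset.prod_eq_one
  intro t _
  rcases hw t with h | h <;> rw [h] <;> norm_num

theorem dft_nonempty (F : Finset (ZMod n)) (hF : Odd F.card) (w : ZMod n → ℝ) (hw : IsSgn w) :
    (dft F w).Nonempty := by
  by_contra hne
  rw [Finset.not_nonempty_iff_eq_empty] at hne
  have h : ∀ t, w t * w (t - 1) = sg F t := by
    intro t
    by_contra ht
    have : t ∈ dft F w := by
      unfold dft
      exact Finset.mem_filter.mpr ⟨Finset.mem_univ t, ht⟩
    rw [hne] at this
    exact absurd this (Finset.notMem_empty t)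
  have h1 := prod_ww w hw
  rw [Finset.prod_congr rfl fun t _ => h t, prod_sg, hF.neg_one_pow] at h1
  norm_num at h1

/-- Existence of a sign vector with prescribed cyclic products. -/
theorem exists_sgn (τ : ZMod n → ℝ) (hτ : IsSgn τ) (hp : ∏ t, τ t = 1) :
    ∃ w, IsSgn w ∧ ∀ t, w t * w (t - 1) = τ t := by
  let w : ZMod n → ℝ := fun s => ∏ r ∈ Finset.range s.val, τ ((r : ZMod n) + 1)
  have hw : IsSgn w := by
    intro s
    have : ∀ m : ℕ, (∏ r ∈ Finset.range m, τ ((r : ZMod n) + 1)) = 1 ∨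
        (∏ r ∈ Finset.range m, τ ((r : ZMod n) + 1)) = -1 := by
      intro m
      induction m with
      | zero => left; simp
      | succ m ih =>
        rw [Finset.prod_range_succ]
        rcases ih with h | h <;> rcases hτ ((m : ZMod n) + 1) with h' | h' <;> rw [h, h'] <;>
          norm_num
    exact this s.val
  refine ⟨w, hw, fun t => ?_⟩
  by_cases ht : t = 0
  · subst ht
    have h0 : w 0 = 1 := by simp [w]
    have h1 : w (0 - 1) = τ 0 := by
      have hval : ((0 : ZMod n) - 1).val = n - 1 := by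
        obtain ⟨m, rfl⟩ : ∃ m, n = m + 1 := ⟨n - 1, by have := NeZero.pos n; omega⟩
        rw [zero_sub]
        exact ZMod.val_neg_one m
      have h2 : ∏ t, τ t = ∏ r ∈ Finset.range n, τ ((r : ZMod n) + 1) := by
        rw [← Fintype.prod_equiv (Equiv.addRight (1 : ZMod n)) (fun t => τ (t + 1)) τ
          (fun _ => rfl)]
        symm
        apply Finset.prod_bij (fun (r : ℕ) _ => (r : ZMod n))
        · intro r _; exact Finset.mem_univ _
        · intro r hr r' hr' h
          rw [Finset.mem_range] at hr hr'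
          have := congrArg ZMod.val h
          rwa [ZMod.val_cast_of_lt hr, ZMod.val_cast_of_lt hr'] at this
        · intro t _
          exact ⟨t.val, Finset.mem_range.mpr (ZMod.val_lt t), ZMod.natCast_zmod_val t⟩
        · intro r _; rfl
      have h3 : Finset.range n = Finset.range (n - 1 + 1) := by
        have := NeZero.pos n
        congr 1; omega
      rw [hp, h3, Finset.prod_range_succ] at h2
      have h4 : (((n - 1 : ℕ) : ZMod n)) + 1 = 0 := by
        have h5 : ((n - 1 : ℕ) : ZMod n) + ((1 : ℕ) : ZMod n) = ((n - 1 + 1 : ℕ) : ZMod n) := by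
          push_cast; ring
        have h6 : n - 1 + 1 = n := by have := NeZero.pos n; omega
        rw [h6] at h5
        rw [Nat.cast_one] at h5
        rw [h5, ZMod.natCast_self]
      rw [h4] at h2
      change ∏ r ∈ Finset.range (0 - 1 : ZMod n).val, τ ((r : ZMod n) + 1) = τ 0
      rw [hval]
      rcases hτ 0 with h | h <;> rw [h] at h2 ⊢ <;> linarith
    rw [h0, h1, one_mul]
  · have hval : t.val = (t - 1).val + 1 := by
      have h1 : t.val ≠ 0 := fun h => ht ((ZMod.val_eq_zero t).mp h)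
      have h2 := ZMod.val_lt t
      have h3 : ((t.val - 1 : ℕ) : ZMod n) = t - 1 := by
        rw [Nat.cast_sub (by omega), ZMod.natCast_zmod_val, Nat.cast_one]
      rw [← h3, ZMod.val_cast_of_lt (by omega)]
      omega
    have h1 : w t = w (t - 1) * τ t := by
      change ∏ r ∈ Finset.range t.val, τ ((r : ZMod n) + 1) =
        (∏ r ∈ Finset.range (t - 1).val, τ ((r : ZMod n) + 1)) * τ t
      rw [hval, Finset.prod_range_succ, ZMod.natCast_zmod_val, sub_add_cancel]
    rw [h1]
    rcases hw (t - 1) with h | h <;> rw [h] <;> ring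

/-- `w` is a sign vector whose only defect is `t`. -/
def Tight (F : Finset (ZMod n)) (t : ZMod n) (w : ZMod n → ℝ) : Prop :=
  IsSgn w ∧ ∀ s, w s * w (s - 1) = sg F s * (if s = t then -1 else 1)

theorem exists_tight (F : Finset (ZMod n)) (hF : Odd F.card) (t : ZMod n) :
    ∃ w, Tight F t w := by
  obtain ⟨w, hw, h⟩ := exists_sgn (fun s => sg F s * (if s = t then -1 else 1))
    (by
      intro s
      simp only
      split_ifs <;> rcases sg_sgn F s with h | h <;> rw [h] <;> norm_num)
    (by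
      rw [Finset.prod_mul_distrib, prod_sg, hF.neg_one_pow, Finset.prod_ite_eq' Finset.univ t]
      simp)
  exact ⟨w, hw, h⟩

theorem Tight.dft_eq {F : Finset (ZMod n)} {t : ZMod n} {w : ZMod n → ℝ} (h : Tight F t w) :
    dft F w = {t} := by
  ext s
  simp only [dft, Finset.mem_filter, Finset.mem_univ, true_and, Finset.mem_singleton]
  rw [h.2 s]
  by_cases hs : s = t
  · rcases sg_sgn F s with h' | h' <;> rw [h'] <;> norm_num [hs]
  · rcases sg_sgn F s with h' | h' <;> rw [h'] <;> norm_num [hs]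

/-- The polytope. -/
abbrev PP (n : ℕ) [NeZero n] : Set (E n) :=
  convexHull ℝ (Z n (fun _ => 1) (fun _ => n - 1) (fun _ => 1) (fun _ => n - 1))

theorem Tight.mem {F : Finset (ZMod n)} {t : ZMod n} {w : ZMod n → ℝ} (h : Tight F t w)
    (hF : 3 ≤ F.card) : pt w ∈ PP n := by
  apply subset_convexHull
  obtain ⟨s, hs, hst⟩ : ∃ s ∈ F, s ≠ t := by
    by_contra hcon
    push Not at hcon
    have : F ⊆ {t} := fun s hs => Finset.mem_singleton.mpr (hcon s hs)
    have := Finset.card_le_card this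
    rw [Finset.card_singleton] at this
    omega
  have h1 := h.2 s
  rw [if_neg hst] at h1
  have h2 : sg F s = -1 := by unfold sg; rw [if_pos hs]
  rw [h2] at h1
  rcases h.1 s with h3 | h3
  · refine pt_mem_Z w h.1 ⟨s, h3⟩ ⟨s - 1, ?_⟩
    rw [h3] at h1; linarith
  · refine pt_mem_Z w h.1 ⟨s - 1, ?_⟩ ⟨s, h3⟩
    rw [h3] at h1; linarith

/-- The face attached to `F`. -/
def Face (F : Finset (ZMod n)) : Set (E n) := {p ∈ PP n | cF F p = (F.card : ℝ) - 1}

theorem Tight.mem_face {F : Finset (ZMod n)} {t : ZMod n} {w : ZMod n → ℝ} (h : Tight F t w)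
    (hF : 3 ≤ F.card) : pt w ∈ Face F := by
  refine ⟨h.mem hF, ?_⟩
  rw [cF_pt F w h.1, h.dft_eq, Finset.card_singleton, Nat.cast_one]

theorem Tight.neg {F : Finset (ZMod n)} {t : ZMod n} {w : ZMod n → ℝ} (h : Tight F t w) :
    Tight F t (-w) := by
  refine ⟨fun s => ?_, fun s => ?_⟩
  · rcases h.1 s with h' | h'
    · right; rw [Pi.neg_apply, h']
    · left; rw [Pi.neg_apply, h', neg_neg]
  · rw [← h.2 s, Pi.neg_apply, Pi.neg_apply]; ring

theorem Tight.flip {F : Finset (ZMod n)} {t : ZMod n} {w : ZMod n → ℝ} (h : Tight F t w)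
    (hn : 4 ≤ n) : Tight F (t + 1) (Function.update w t (-w t)) := by
  have h10 : (1 : ZMod n) ≠ 0 := by
    have : Fact (1 < n) := ⟨by omega⟩
    exact one_ne_zero
  refine ⟨fun s => ?_, fun s => ?_⟩
  · by_cases hs : s = t
    · subst hs
      rw [Function.update_self]
      rcases h.1 s with h' | h'
      · right; rw [h']
      · left; rw [h', neg_neg]
    · rw [Function.update_of_ne hs]; exact h.1 s
  · have h1 := h.2 s
    by_cases hs : s = t
    · subst hs
      have hs1 : s - 1 ≠ s := fun h => h10 (by linear_combination -h)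
      have hs2 : s ≠ s + 1 := fun h => h10 (by linear_combination -h)
      rw [Function.update_self, Function.update_of_ne hs1, if_neg hs2]
      rw [if_pos rfl] at h1
      linarith
    · rw [if_neg hs] at h1
      rw [Function.update_of_ne hs]
      by_cases hs1 : s - 1 = t
      · have hs2 : s = t + 1 := by rw [← hs1]; ring
        rw [hs1, Function.update_self, if_pos hs2]
        rw [hs1] at h1
        linarith
      · have hs2 : s ≠ t + 1 := fun h => hs1 (by rw [h]; ring)
        rw [Function.update_of_ne hs1, if_neg hs2]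
        exact h1

theorem valid (F : Finset (ZMod n)) (hF : Odd F.card) :
    ∀ p ∈ PP n, cF F p ≤ (F.card : ℝ) - 1 := by
  intro p hp
  have hconv : Convex ℝ {p : E n | cF F p ≤ (F.card : ℝ) - 1} :=
    convex_halfSpace_le (cF F).isLinear _
  refine convexHull_min ?_ hconv hp
  intro q hq
  obtain ⟨w, hw, rfl⟩ := eq_pt_of_mem_Z hq
  change cF F (pt w) ≤ _
  rw [cF_pt F w hw]
  have h1 := (dft_nonempty F hF w hw).card_pos
  have h2 : (1 : ℝ) ≤ ((dft F w).card : ℝ) := by exact_mod_cast h1
  linarith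

section span

variable {F : Finset (ZMod n)}

/-- The pullback of the direction space of the face. -/
noncomputable def SS (F : Finset (ZMod n)) : Submodule ℝ (E n) :=
  (vectorSpan ℝ (Face F)).comap Phi

theorem sub_mem_SS {u v : E n} (hu : Phi u ∈ Face F) (hv : Phi v ∈ Face F) : u - v ∈ SS F := by
  unfold SS
  rw [Submodule.mem_comap, map_sub]
  exact vsub_mem_vectorSpan ℝ hu hv

theorem neg_mem_SS {t : ZMod n} {w : ZMod n → ℝ} (h : Tight F t w) (hF : 3 ≤ F.card) :
    ((w, 0) : E n) ∈ SS F := by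
  have h1 := sub_mem_SS (h.neg.mem_face hF) (h.mem_face hF)
  convert h1 using 1
  ext s
  · simp only [Prod.fst_sub, Pi.sub_apply, Pi.neg_apply]; ring
  · simp only [Prod.snd_sub, Pi.sub_apply, Pi.neg_apply, Pi.zero_apply]; ring

theorem single_mem_SS (hn : 4 ≤ n) (hF : 3 ≤ F.card) (hodd : Odd F.card) (t : ZMod n) :
    ((Pi.single t 1, 0) : E n) ∈ SS F := by
  obtain ⟨w, h⟩ := exists_tight F hodd t
  have h1 := neg_mem_SS h hF
  have h2 := neg_mem_SS (h.flip hn) hF
  have h3 := (SS F).smul_mem (w t / 2) ((SS F).sub_mem h1 h2)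
  convert h3 using 1
  ext s
  · simp only [Prod.smul_fst, Prod.fst_sub, Pi.smul_apply, Pi.sub_apply, smul_eq_mul]
    by_cases hs : s = t
    · subst hs
      rw [Pi.single_eq_same, Function.update_self]
      rcases h.1 s with h' | h' <;> rw [h'] <;> norm_num
    · rw [Pi.single_eq_of_ne hs, Function.update_of_ne hs]; ring
  · simp

theorem fst_mem_SS (hn : 4 ≤ n) (hF : 3 ≤ F.card) (hodd : Odd F.card) (v : ZMod n → ℝ) :
    ((v, 0) : E n) ∈ SS F := by
  have h : ((v, 0) : E n) = ∑ t, v t • ((Pi.single t 1, 0) : E n) := by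
    ext s
    · simp [Prod.fst_sum, Finset.sum_apply, Pi.single_apply]
    · simp [Prod.snd_sum]
  rw [h]
  exact (SS F).sum_mem fun t _ => (SS F).smul_mem _ (single_mem_SS hn hF hodd t)

theorem snd_mem_SS (hn : 4 ≤ n) (hF : 3 ≤ F.card) (hodd : Odd F.card) (t r : ZMod n) :
    ((0, sg F t • Pi.single t 1 - sg F r • Pi.single r 1) : E n) ∈ SS F := by
  obtain ⟨w, h⟩ := exists_tight F hodd t
  obtain ⟨w', h'⟩ := exists_tight F hodd r
  have h1 := sub_mem_SS (h.mem_face hF) (h'.mem_face hF)
  have h2 := fst_mem_SS hn hF hodd (fun s => (1 - w s) / 2 - (1 - w' s) / 2)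
  have h3 := (SS F).sub_mem h1 h2
  convert h3 using 1
  ext s
  · simp
  · simp only [Prod.snd_sub, Pi.sub_apply, Pi.smul_apply, smul_eq_mul, Pi.zero_apply, sub_zero]
    rw [h.2 s, h'.2 s]
    by_cases hs : s = t
    · subst hs
      by_cases hr : s = r
      · subst hr
        simp
      · rw [Pi.single_eq_same, Pi.single_eq_of_ne hr]
        simp only [if_true, if_neg hr]
        ring
    · by_cases hr : s = r
      · subst hr
        rw [Pi.single_eq_same, Pi.single_eq_of_ne hs]
        simp only [if_true, if_neg hs]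
        ring
      · rw [Pi.single_eq_of_ne hs, Pi.single_eq_of_ne hr]
        simp only [if_neg hs, if_neg hr]
        ring

theorem decomp (hn : 4 ≤ n) (hF : 3 ≤ F.card) (hodd : Odd F.card) (v : E n) :
    ∃ s ∈ vectorSpan ℝ (Face F), ∃ c : ℝ, v = s + c • Phi ((0, Pi.single 0 1) : E n) := by
  obtain ⟨u, rfl⟩ := Phi_surj v
  have h1 := fst_mem_SS hn hF hodd u.1
  have h2 : (∑ t, (u.2 t * sg F t) •
      ((0, sg F t • Pi.single t 1 - sg F 0 • Pi.single 0 1) : E n)) ∈ SS F :=
    (SS F).sum_mem fun t _ => (SS F).smul_mem _ (snd_mem_SS hn hF hodd t 0)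
  refine ⟨_, (SS F).add_mem h1 h2, (∑ t, u.2 t * sg F t) * sg F 0, ?_⟩
  rw [← map_smul, ← map_add]
  congr 1
  ext s
  · simp [Prod.fst_sum]
  · simp only [Prod.snd_add, Prod.snd_sum, Pi.add_apply, Finset.sum_apply, Prod.smul_snd,
      Pi.smul_apply, Pi.sub_apply, smul_eq_mul, zero_add]
    have h3 : ∀ t : ZMod n, u.2 t * sg F t * (sg F t * (Pi.single t 1 : ZMod n → ℝ) s -
        sg F 0 * (Pi.single 0 1 : ZMod n → ℝ) s) =
        u.2 t * (Pi.single t 1 : ZMod n → ℝ) s -
          u.2 t * sg F t * (sg F 0 * (Pi.single 0 1 : ZMod n → ℝ) s) := by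
      intro t
      have h4 : sg F t * sg F t = 1 := by
        rcases sg_sgn F t with h | h <;> rw [h] <;> norm_num
      linear_combination (u.2 t * (Pi.single t 1 : ZMod n → ℝ) s) * h4
    rw [Finset.sum_congr rfl fun t _ => h3 t, Finset.sum_sub_distrib, ← Finset.sum_mul]
    have h5 : ∑ t, u.2 t * (Pi.single t 1 : ZMod n → ℝ) s = u.2 s := by
      simp [Pi.single_apply]
    rw [h5]; ring

end span

theorem finrank_E : finrank ℝ (E n) = 2 * n := by
  rw [Module.finrank_prod, Module.finrank_pi, ZMod.card]; ring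

theorem finrank_face_ge {F : Finset (ZMod n)} (hn : 4 ≤ n) (hF : 3 ≤ F.card)
    (hodd : Odd F.card) : 2 * n ≤ finrank ℝ (vectorSpan ℝ (Face F)) + 1 := by
  set S := vectorSpan ℝ (Face F) with hS
  have htop : S ⊔ Submodule.span ℝ {Phi ((0, Pi.single 0 1) : E n)} = ⊤ := by
    rw [eq_top_iff]
    intro v _
    obtain ⟨s, hs, c, rfl⟩ := decomp hn hF hodd v
    exact Submodule.add_mem_sup hs (Submodule.smul_mem _ _ (Submodule.mem_span_singleton_self _))
  have h1 := Submodule.finrank_add_le_finrank_add_finrank S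
    (Submodule.span ℝ {Phi ((0, Pi.single 0 1) : E n)})
  rw [htop, finrank_top, finrank_E] at h1
  have h2 : finrank ℝ (Submodule.span ℝ {Phi ((0, Pi.single 0 1) : E n)}) ≤ 1 := by
    refine (finrank_span_le_card (R := ℝ) {Phi ((0, Pi.single 0 1) : E n)}).trans ?_
    simp
  exact h1.trans (Nat.add_le_add_left h2 _)

/-- Two different odd sets give a point in one face but not in the other. -/
theorem exists_sep {F F' : Finset (ZMod n)} (hn : 4 ≤ n) (hF : 3 ≤ F.card)
    (hodd : Odd F.card) (hne : F ≠ F') : ∃ p ∈ Face F, p ∉ Face F' := by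
  classical
  set D : Finset (ZMod n) := Finset.univ.filter fun s => sg F s ≠ sg F' s with hD
  have hDne : D.Nonempty := by
    by_contra hcon
    rw [Finset.not_nonempty_iff_eq_empty] at hcon
    apply hne
    ext s
    have : sg F s = sg F' s := by
      by_contra hs
      have : s ∈ D := by rw [hD]; exact Finset.mem_filter.mpr ⟨Finset.mem_univ s, hs⟩
      rw [hcon] at this
      exact absurd this (Finset.notMem_empty s)
    unfold sg at this
    by_cases h1 : s ∈ F <;> by_cases h2 : s ∈ F' <;> simp only [h1, h2, if_true, if_false] at this ⊢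
    all_goals norm_num at this
  have hmem : ∀ s, s ∈ D ↔ sg F s ≠ sg F' s := by
    intro s; rw [hD]; simp
  have hsgn : ∀ s, sg F s ≠ sg F' s ↔ -sg F s = sg F' s := by
    intro s
    rcases sg_sgn F s with h | h <;> rcases sg_sgn F' s with h' | h' <;> rw [h, h'] <;> norm_num
  have hsgn' : ∀ s, -sg F s ≠ sg F' s ↔ sg F s = sg F' s := by
    intro s
    rcases sg_sgn F s with h | h <;> rcases sg_sgn F' s with h' | h' <;> rw [h, h'] <;> norm_num
  -- it suffices to find `t` such that the defect set of a tight vector has card `≠ 1`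
  suffices h : ∃ t, ∀ w, Tight F t w → (dft F' w).card ≠ 1 by
    obtain ⟨t, ht⟩ := h
    obtain ⟨w, hw⟩ := exists_tight F hodd t
    refine ⟨pt w, hw.mem_face hF, fun hmemF' => ht w hw ?_⟩
    have h1 := hmemF'.2
    rw [cF_pt F' w hw.1] at h1
    have h2 : ((dft F' w).card : ℝ) = 1 := by linarith
    exact_mod_cast h2
  by_cases hc : D.card = 2
  · obtain ⟨t, ht⟩ : ∃ t, t ∉ D := by
      by_contra hcon
      push Not at hcon
      have : D = Finset.univ := Finset.eq_univ_of_forall hcon
      rw [this, Finset.card_univ, ZMod.card] at hc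
      omega
    refine ⟨t, fun w hw => ?_⟩
    have : dft F' w = insert t D := by
      ext s
      simp only [dft, Finset.mem_filter, Finset.mem_univ, true_and, Finset.mem_insert, hmem]
      rw [hw.2 s]
      by_cases hs : s = t
      · subst hs
        rw [hmem, not_not] at ht
        simp only [if_true, true_or, iff_true, mul_neg, mul_one]
        rw [hsgn']; exact ht
      · rw [if_neg hs, mul_one]
        simp only [hs, false_or]
    rw [this, Finset.card_insert_of_notMem ht, hc]
    norm_num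
  · obtain ⟨t, ht⟩ := hDne
    refine ⟨t, fun w hw => ?_⟩
    have : dft F' w = D.erase t := by
      ext s
      simp only [dft, Finset.mem_filter, Finset.mem_univ, true_and, Finset.mem_erase, hmem]
      rw [hw.2 s]
      by_cases hs : s = t
      · subst hs
        rw [hmem] at ht
        simp only [if_true, mul_neg, mul_one, ne_eq, not_true_eq_false, false_and, iff_false,
          not_not]
        exact (hsgn s).mp ht
      · rw [if_neg hs, mul_one]
        simp only [ne_eq, hs, not_false_eq_true, true_and]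
    rw [this, Finset.card_erase_of_mem ht]
    have := Finset.card_pos.mpr ⟨t, ht⟩
    omega

theorem exists_other (F : Finset (ZMod n)) (hn : 4 ≤ n) :
    ∃ F' : Finset (ZMod n), F'.card = 3 ∧ F' ≠ F := by
  classical
  obtain ⟨A, -, hA⟩ := Finset.exists_subset_card_eq (s := (Finset.univ : Finset (ZMod n))) (n := 3)
    (by rw [Finset.card_univ, ZMod.card]; omega)
  by_cases h : A = F
  · obtain ⟨x, hx⟩ : ∃ x, x ∉ A := by
      by_contra hcon
      push Not at hcon
      have : A = Finset.univ := Finset.eq_univ_of_forall hcon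
      rw [this, Finset.card_univ, ZMod.card] at hA
      omega
    obtain ⟨a, ha⟩ : A.Nonempty := Finset.card_pos.mp (by omega)
    refine ⟨insert x (A.erase a), ?_, ?_⟩
    · rw [Finset.card_insert_of_notMem (fun h => hx (Finset.mem_of_mem_erase h)),
        Finset.card_erase_of_mem ha, hA]
    · intro h'
      rw [← h] at h'
      apply hx
      rw [← h']
      exact Finset.mem_insert_self _ _
  · exact ⟨A, hA, h⟩

theorem isFacet_face {F : Finset (ZMod n)} (hn : 4 ≤ n) (hF : 3 ≤ F.card) (hodd : Odd F.card) :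
    IsFacet (PP n) (Face F) := by
  have hge := finrank_face_ge hn hF hodd
  obtain ⟨w, hw⟩ := exists_tight F hodd 0
  have hne : (Face F).Nonempty := ⟨pt w, hw.mem_face hF⟩
  refine ⟨⟨cF F, (F.card : ℝ) - 1, valid F hodd, rfl⟩, hne, ?_⟩
  obtain ⟨F', hF', hFF'⟩ := exists_other F hn
  obtain ⟨q, hq, hqF⟩ := exists_sep (F := F') (F' := F) hn (by omega) (by rw [hF']; decide) hFF'
  have hlt : vectorSpan ℝ (Face F) < vectorSpan ℝ (PP n) := by
    refine lt_of_le_of_ne (vectorSpan_mono ℝ fun p hp => hp.1) fun heq => ?_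
    have h1 : q - pt w ∈ vectorSpan ℝ (PP n) :=
      vsub_mem_vectorSpan ℝ hq.1 (hw.mem hF)
    rw [← heq] at h1
    have h2 : vectorSpan ℝ (Face F) ≤ LinearMap.ker (cF F) := by
      unfold vectorSpan
      rw [Submodule.span_le]
      rintro _ ⟨a, ha, b, hb, rfl⟩
      simp only [SetLike.mem_coe, LinearMap.mem_ker]
      change cF F (a - b) = 0
      rw [map_sub, ha.2, hb.2, sub_self]
    have h3 := h2 h1
    rw [LinearMap.mem_ker, map_sub, (hw.mem_face hF).2, sub_eq_zero] at h3
    exact hqF ⟨hq.1, h3⟩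
  have h4 := Submodule.finrank_lt_finrank_of_lt hlt
  have h5 := Submodule.finrank_le (vectorSpan ℝ (PP n))
  rw [finrank_E] at h5
  omega

/-- There are at least `2 ^ (n - 4)` facets. -/
theorem many (hn : 4 ≤ n) : ∃ s : Finset (Set (E n)), (∀ F ∈ s, IsFacet (PP n) F) ∧
    s.card = 2 ^ (n - 4) := by
  classical
  obtain ⟨B, -, hB⟩ := Finset.exists_subset_card_eq (s := (Finset.univ : Finset (ZMod n))) (n := 4)
    (by rw [Finset.card_univ, ZMod.card]; omega)
  obtain ⟨B', hB'B, hB'⟩ := Finset.exists_subset_card_eq (s := B) (n := 3) (by omega)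
  let g : Finset (ZMod n) → Finset (ZMod n) := fun A => if Even A.card then A ∪ B' else A ∪ B
  have hg : ∀ A ∈ (Finset.univ \ B).powerset, 3 ≤ (g A).card ∧ Odd (g A).card ∧ g A \ B = A := by
    intro A hA
    rw [Finset.mem_powerset] at hA
    have hdisj : Disjoint A B := by
      rw [Finset.disjoint_left]
      intro a ha hb
      exact (Finset.mem_sdiff.mp (hA ha)).2 hb
    have hdisj' : Disjoint A B' := Finset.disjoint_of_subset_right hB'B hdisj
    by_cases he : Even A.card
    · have h1 : g A = A ∪ B' := if_pos he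
      rw [h1]
      refine ⟨?_, ?_, ?_⟩
      · rw [Finset.card_union_of_disjoint hdisj']; omega
      · rw [Finset.card_union_of_disjoint hdisj', hB']
        exact he.add_odd (by decide)
      · rw [Finset.union_sdiff_distrib, Finset.sdiff_eq_empty_iff_subset.mpr hB'B,
          Finset.union_empty, Finset.sdiff_eq_self_of_disjoint hdisj]
    · have h1 : g A = A ∪ B := if_neg he
      rw [h1]
      refine ⟨?_, ?_, ?_⟩
      · rw [Finset.card_union_of_disjoint hdisj]; omega
      · rw [Finset.card_union_of_disjoint hdisj, hB]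
        exact (Nat.not_even_iff_odd.mp he).add_even (by decide)
      · rw [Finset.union_sdiff_distrib, Finset.sdiff_self, Finset.union_empty,
          Finset.sdiff_eq_self_of_disjoint hdisj]
  refine ⟨(Finset.univ \ B).powerset.image fun A => Face (g A), ?_, ?_⟩
  · intro G hG
    obtain ⟨A, hA, rfl⟩ := Finset.mem_image.mp hG
    obtain ⟨h1, h2, -⟩ := hg A hA
    exact isFacet_face hn h1 h2
  · rw [Finset.card_image_of_injOn, Finset.card_powerset, Finset.card_sdiff_of_subset
      (Finset.subset_univ B), Finset.card_univ, ZMod.card, hB]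
    intro A hA A' hA' h
    obtain ⟨h1, h2, h3⟩ := hg A hA
    obtain ⟨-, -, h3'⟩ := hg A' hA'
    have hgg : g A = g A' := by
      by_contra hne
      obtain ⟨p, hp, hp'⟩ := exists_sep hn h1 h2 hne
      simp only at h
      rw [h] at hp
      exact hp' hp
    rw [← h3, ← h3', hgg]

end

/-- Exponentials beat polynomials. -/
theorem growth (p : Polynomial ℝ) : ∃ n : ℕ, 4 ≤ n ∧ p.eval (n : ℝ) < (2 ^ (n - 4) : ℕ) := by
  have h : Filter.Tendsto (fun n : ℕ => p.eval (n : ℝ) / 2 ^ n) Filter.atTop (nhds 0) := by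
    have h1 : (fun n : ℕ => p.eval (n : ℝ) / 2 ^ n) = fun n : ℕ =>
        ∑ i ∈ Finset.range (p.natDegree + 1), p.coeff i * ((n : ℝ) ^ i / 2 ^ n) := by
      funext n
      rw [Polynomial.eval_eq_sum_range, Finset.sum_div]
      exact Finset.sum_congr rfl fun i _ => by ring
    rw [h1]
    have h2 : (0 : ℝ) = ∑ i ∈ Finset.range (p.natDegree + 1), p.coeff i * 0 := by simp
    rw [h2]
    refine tendsto_finsetSum _ fun i _ => ?_
    exact (tendsto_pow_const_div_const_pow_of_one_lt i (by norm_num : (1 : ℝ) < 2)).const_mul _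
  have h2 := (h.eventually_lt_const (by norm_num : (0 : ℝ) < 1 / 16)).and
    (Filter.eventually_ge_atTop 4)
  obtain ⟨n, hn, hn4⟩ := h2.exists
  refine ⟨n, hn4, ?_⟩
  obtain ⟨m, rfl⟩ : ∃ m, n = m + 4 := ⟨n - 4, by omega⟩
  rw [div_lt_iff₀ (by positivity)] at hn
  rw [Nat.add_sub_cancel]
  push_cast at hn ⊢
  calc Polynomial.eval ((m : ℝ) + 4) p < 1 / 16 * 2 ^ (m + 4) := hn
    _ = 2 ^ m := by rw [pow_add]; ring

/-- The number of facets of `conv Z` is not bounded by a polynomial in `n`. -/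
theorem result : ∀ p : Polynomial ℝ, ∃ (n : ℕ) (_ : NeZero n) (α β γ δ : ZMod n → ℕ),
    2 ≤ n ∧ Bounds n α β ∧ Bounds n γ δ ∧
    WeaklyMonotone n α ∧ WeaklyMonotone n β ∧ WeaklyMonotone n γ ∧ WeaklyMonotone n δ ∧
    ∃ s : Finset (Set (E n)), (∀ F ∈ s, IsFacet (convexHull ℝ (Z n α β γ δ)) F) ∧
      p.eval (n : ℝ) < s.card := by
  intro p
  obtain ⟨n, hn, hp⟩ := growth p
  have hn0 : NeZero n := ⟨by omega⟩
  obtain ⟨s, hs, hcard⟩ := many (n := n) hn
  refine ⟨n, hn0, fun _ => 1, fun _ => n - 1, fun _ => 1, fun _ => n - 1, by omega,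
    fun _ => ⟨le_rfl, by change 1 ≤ n - 1; omega, le_rfl⟩,
    fun _ => ⟨le_rfl, by change 1 ≤ n - 1; omega, le_rfl⟩,
    fun _ => Nat.le_succ _, fun _ => Nat.le_succ _, fun _ => Nat.le_succ _,
    fun _ => Nat.le_succ _, s, hs, ?_⟩
  rw [hcard]
  exact hp

end Pool.Agent.Results.MP_7df715_lc.ManyFacets
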